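import Pool.Agent.H131R5.LM3
import Pool.Agent.W570.NQ.L2
import Pool.Agent.Run7.h304.VR.Rate

/-!
# The `L^p`-Mahler volume, the ellipsoid of greatest volume, and the asymmetry

For every convex body `K` of `ℝⁿ`, in every position relative to the origin, let `a + S(B)` be an
ellipsoid of greatest volume in `K` and let `s` bound the Minkowski asymmetry of `K` about `a`
(`-(K - a) ⊆ s (K - a)`; `s = n` is always allowed).  Then for every `p ∈ (0,∞)`

  `M_p(K) ≥ (|K|/det S)^(1+1/p) J_p(s)^n`,   `J_p(s) = ∫_ℝ (∫_{-s}^1 e^{pλx} dx)^(-1/p) dλ`,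

and `M_∞(K) ≥ (|K|/det S) (1+1/s)^n`.  There is equality for the cube (`s = 1`), and since
`J_p(s) ≥ γ(p) = p^(1/p) Γ(1+1/p)` the bound has the exact exponential rate
`r(p)^n = e^((1+1/p)n) γ(p)^n` at the simplex.  So, up to a factor `(1-ε)^n`,

  `M_p(K)/inf_x M_p(Δ_n - x) ≥ (J_p(s)/γ(p))^n (vr(K)/vr(Δ_n))^(1+1/p)`,   `vr = |K|/det S`.

Outline.  In John's position the contact points `v_i` and weights `c_i` give
`-s ≤ ⟨v_i,y⟩ ≤ 1` on the body; the Brascamp-Lieb inequality bounds its Laplace transform at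
`∑ c_iλ_iv_i` by `∏ A_s(pλ_i)^(c_i)`; the reverse Brascamp-Lieb inequality for the functions
`A_s(pλ)^(-1/p) e^(λτ_i)`, `τ_i = ⟨b,v_i⟩` with `b` the position of the origin, and Hölder's
inequality with `∑ c_iτ_i = 0`, give the bound in all positions at once.
-/

set_option autoImplicit false

noncomputable section

open MeasureTheory Set Filter
open scoped ENNReal Topology

namespace Pool.Agent.Results.MP_5f4cdd_gt.EllipsoidVolumeRatio

/-- convex bodies in `ℝⁿ` (in any position) -/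
def Body {n : ℕ} (K : Set (Fin n → ℝ)) : Prop := Convex ℝ K ∧ IsCompact K ∧ (interior K).Nonempty

/-- The `L^p`-Mahler volume `M_p(K) = vol(K) ∫ exp(-h_{p,K}(y)) dy` for `0 < p < ∞`, where
`exp(-h_{p,K}(y)) = ((1/vol K) ∫_K exp(p⟨x,y⟩) dx)^(-1/p)`. -/
def mahlerVolume {n : ℕ} (p : ℝ) (K : Set (Fin n → ℝ)) : ℝ≥0∞ :=
  volume K * ∫⁻ y : Fin n → ℝ, ENNReal.ofReal
    (((∫ x in K, Real.exp (p * ∑ i, x i * y i)) / (volume K).toReal) ^ (-(1 / p)))

/-- The classical Mahler volume `M_∞(K) = vol(K) ∫ exp(-h_K(y)) dy` (the case `p = ∞`), where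
`h_K(y) = sup_{x ∈ K} ⟨x, y⟩`. -/
def mahlerInf {n : ℕ} (K : Set (Fin n → ℝ)) : ℝ≥0∞ :=
  volume K * ∫⁻ y : Fin n → ℝ, ENNReal.ofReal
    (Real.exp (-(sSup ((fun x : Fin n → ℝ => ∑ i, x i * y i) '' K))))

/-- the standard simplex `Δ_n` -/
def simplex (n : ℕ) : Set (Fin n → ℝ) := {z | (∀ i, 0 ≤ z i) ∧ ∑ i, z i ≤ 1}

/-- the infimum of `M_p(Δ_n - x)` over `x ∈ Δ_n` -/
def simplexInf (n : ℕ) (p : ℝ) : ℝ≥0∞ :=
  ⨅ x ∈ simplex n, mahlerVolume p ((fun z : Fin n → ℝ => z - x) '' simplex n)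

/-- the cube `[-1,1]ⁿ` -/
def cube (n : ℕ) : Set (Fin n → ℝ) := {x | ∀ i, x i ∈ Icc (-1 : ℝ) 1}

/-- the ellipsoid `a + S(B)` is contained in `K` (`B` is the Euclidean unit ball) -/
def Inside {n : ℕ} (K : Set (Fin n → ℝ)) (a : Fin n → ℝ) (S : Matrix (Fin n) (Fin n) ℝ) : Prop :=
  ∀ x : Fin n → ℝ, ∑ i, x i * x i ≤ 1 → a + S.mulVec x ∈ K

/-- `a + S(B)`, `det S > 0`, is an ellipsoid of the greatest volume in `K` -/
def Greatest {n : ℕ} (K : Set (Fin n → ℝ)) (a : Fin n → ℝ) (S : Matrix (Fin n) (Fin n) ℝ) :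
    Prop :=
  Inside K a S ∧ 0 < S.det ∧ ∀ a' S', Inside K a' S' → S'.det ≤ S.det

/-- the asymmetry of `K` about `a` is at most `s`: `-(K - a) ⊆ s (K - a)` -/
def AsymmetryAtMost {n : ℕ} (K : Set (Fin n → ℝ)) (a : Fin n → ℝ) (s : ℝ) : Prop :=
  ∀ x ∈ K, a + s⁻¹ • (a - x) ∈ K

/-- the ratio `vol(K)/det S`, that is `vol(B)` times the volume ratio of `K` -/
def ratio {n : ℕ} (K : Set (Fin n → ℝ)) (S : Matrix (Fin n) (Fin n) ℝ) : ℝ :=
  (volume K).toReal / S.det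

/-- `A_s(t) = ∫_{-s}^1 e^{tx} dx` -/
def strip (s t : ℝ) : ℝ := ∫ x in (-s)..1, Real.exp (t * x)

/-- `J_p(s) = ∫_ℝ A_s(pλ)^(-1/p) dλ` -/
def J (p s : ℝ) : ℝ := ∫ l : ℝ, strip s (p * l) ^ (-(1 / p))

/-- the constant `γ(p) = p^(1/p) Γ(1+1/p)` -/
def gamma (p : ℝ) : ℝ := p ^ (1 / p) * Real.Gamma (1 + 1 / p)

/-- the rate `r(p) = e^(1+1/p) p^(1/p) Γ(1+1/p)`, the limit of the `n`-th roots of the infima
`inf_x M_p(Δ_n - x)` -/
def rate (p : ℝ) : ℝ := Real.exp (1 + 1 / p) * p ^ (1 / p) * Real.Gamma (1 + 1 / p)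

lemma maxEll {n : ℕ} {K : Set (Fin n → ℝ)} {a : Fin n → ℝ} {S : Matrix (Fin n) (Fin n) ℝ} :
    Greatest K a S ↔ Pool.Agent.Run7.h304.VR.MaxEll K a S :=
  ⟨fun h => ⟨h.1, h.2.1, h.2.2⟩, fun h => ⟨h.sub, h.pos, h.max⟩⟩

lemma gamma_pos {p : ℝ} (hp : 0 < p) : 0 < gamma p := by
  unfold gamma
  have := Real.Gamma_pos_of_pos (by positivity : 0 < 1 + 1 / p)
  positivity

lemma rate_eq (p : ℝ) : rate p = Real.exp (1 + 1 / p) * gamma p := by
  unfold rate gamma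
  ring

lemma ratio_pos {n : ℕ} {K : Set (Fin n → ℝ)} (hK : Body K) {a : Fin n → ℝ}
    {S : Matrix (Fin n) (Fin n) ℝ} (hE : Greatest K a S) : 0 < ratio K S :=
  div_pos (ENNReal.toReal_pos (Measure.measure_pos_of_nonempty_interior _ hK.2.2).ne'
    hK.2.1.measure_lt_top.ne) hE.2.1

lemma main_all {n : ℕ} (hn : 1 ≤ n) {K : Set (Fin n → ℝ)} (hK : Body K) {a : Fin n → ℝ}
    {S : Matrix (Fin n) (Fin n) ℝ} (hE : Greatest K a S) {s : ℝ} (hs : 0 < s)
    (hA : AsymmetryAtMost K a s) {p : ℝ} (hp : 0 < p) :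
    ENNReal.ofReal (ratio K S ^ (1 + 1 / p) * J p s ^ n) ≤ mahlerVolume p K := by
  by_cases h0 : (0 : Fin n → ℝ) ∈ interior K
  · exact Pool.Agent.Run7.h304.VR.main_p hn hK.2.1 hK.1 (maxEll.1 hE) hs hA h0 hp
  · have h1 : mahlerVolume p K = ⊤ :=
      Pool.Agent.H131R5.LM.Mp_top hK.1 hK.2.1 hK.2.2 h0 hp
    rw [h1]
    exact le_top

lemma main_inf {n : ℕ} (hn : 1 ≤ n) {K : Set (Fin n → ℝ)} (hK : Body K) {a : Fin n → ℝ}
    {S : Matrix (Fin n) (Fin n) ℝ} (hE : Greatest K a S) {s : ℝ} (hs : 0 < s)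
    (hA : AsymmetryAtMost K a s) :
    ENNReal.ofReal (ratio K S * (1 + 1 / s) ^ n) ≤ mahlerInf K := by
  by_cases h0 : (0 : Fin n → ℝ) ∈ interior K
  · exact Pool.Agent.Run7.h304.VR.main_inf hn hK.2.1 hK.1 (maxEll.1 hE) hs hA h0
  · have h1 : mahlerInf K = ⊤ :=
      Pool.Agent.W570.NQ.mah_top hK.1 hK.2.1 hK.2.2 h0
    rw [h1]
    exact le_top

lemma simplex_ratio {n : ℕ} (hn : 1 ≤ n) {a : Fin n → ℝ} {S : Matrix (Fin n) (Fin n) ℝ}
    (hE : Greatest (simplex n) a S) : (n : ℝ) ^ n / n.factorial ≤ ratio (simplex n) S := by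
  have h1 := Pool.Agent.Run7.h304.VR.simplex_det hn hE.1
  have h2 : (volume (simplex n)).toReal = 1 / n.factorial := by
    have h3 : volume (simplex n) = _ := Pool.Agent.W570.AV.vol_sx n 1 zero_le_one
    rw [h3, one_pow, ENNReal.toReal_ofReal (by positivity)]
  have hn' : (0 : ℝ) < n := by exact_mod_cast hn
  unfold ratio
  rw [h2, le_div_iff₀ hE.2.1]
  calc (n : ℝ) ^ n / n.factorial * S.det ≤ (n : ℝ) ^ n / n.factorial * ((n : ℝ) ^ n)⁻¹ :=
        mul_le_mul_of_nonneg_left h1 (by positivity)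
    _ = 1 / n.factorial := by field_simp

lemma up_to {p ε : ℝ} (hp : 0 < p) (hε : 0 < ε) (hε1 : ε < 1) :
    ∃ n₀ : ℕ, ∀ n : ℕ, n₀ ≤ n → ∀ K : Set (Fin n → ℝ), Body K →
      ∀ (a : Fin n → ℝ) (S : Matrix (Fin n) (Fin n) ℝ), Greatest K a S → ∀ s : ℝ, 0 < s →
      AsymmetryAtMost K a s → ∀ (a' : Fin n → ℝ) (S' : Matrix (Fin n) (Fin n) ℝ),
      Greatest (simplex n) a' S' →
      ENNReal.ofReal (((1 - ε) * (J p s / gamma p)) ^ n *
        (ratio K S / ratio (simplex n) S') ^ (1 + 1 / p)) * simplexInf n p ≤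
          mahlerVolume p K := by
  set q : ℝ := 1 + 1 / p with hq
  have hq0 : 0 < q := by positivity
  have h1ε : 0 < 1 - ε := by linarith
  set η : ℝ := (1 - ε) ^ (1 / (1 + q)) with hη
  have hη0 : 0 < η := Real.rpow_pos_of_pos h1ε _
  have hη1 : η < 1 := Real.rpow_lt_one h1ε.le (by linarith) (by positivity)
  have hηq : η ^ (1 + q) = 1 - ε := by
    rw [hη, ← Real.rpow_mul h1ε.le, one_div_mul_cancel (by positivity), Real.rpow_one]
  have hg := gamma_pos hp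
  have hr0 : 0 < rate p := by rw [rate_eq]; positivity
  obtain ⟨n1, hn1⟩ := Pool.Agent.Run7.h304.VR.simplex_up hp (c := rate p / η) (by
    show rate p < rate p / η
    rw [lt_div_iff₀ hη0]
    nlinarith)
  obtain ⟨n2, hn2⟩ := Pool.Agent.Run7.h304.VR.fact_root hη0 hη1
  refine ⟨max (max n1 n2) 1, fun n hn K hK a S hE s hs hA a' S' hE' => ?_⟩
  have hn_1 : n1 ≤ n := ((le_max_left _ _).trans (le_max_left _ _)).trans hn
  have hn_2 : n2 ≤ n := ((le_max_right _ _).trans (le_max_left _ _)).trans hn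
  have hn_3 : 1 ≤ n := (le_max_right _ _).trans hn
  have hI : simplexInf n p ≤ ENNReal.ofReal ((rate p / η) ^ n) := hn1 n hn_1
  have hv : (η * Real.exp 1) ^ n ≤ ratio (simplex n) S' := (hn2 n hn_2).trans
    (simplex_ratio hn_3 hE')
  have hJ : 0 < J p s := Pool.Agent.Run7.h304.VR.J_pos hp hs
  have hrK := ratio_pos hK hE
  have hm := main_all hn_3 hK hE hs hA hp
  refine le_trans ?_ hm
  have he0 : 0 < (η * Real.exp 1) ^ n := by positivity
  have hr' : 0 ≤ ratio K S / ratio (simplex n) S' := div_nonneg hrK.le (he0.le.trans hv)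
  calc ENNReal.ofReal (((1 - ε) * (J p s / gamma p)) ^ n *
        (ratio K S / ratio (simplex n) S') ^ q) * simplexInf n p
      ≤ ENNReal.ofReal (((1 - ε) * (J p s / gamma p)) ^ n *
        (ratio K S / (η * Real.exp 1) ^ n) ^ q) * ENNReal.ofReal ((rate p / η) ^ n) := by
        gcongr
    _ = ENNReal.ofReal (ratio K S ^ q * J p s ^ n) := by
        rw [← ENNReal.ofReal_mul (by positivity)]
        congr 1
        rw [Real.div_rpow hrK.le he0.le, ← Real.rpow_natCast (η * Real.exp 1) n,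
          ← Real.rpow_mul (by positivity), mul_comm (n : ℝ) q, Real.rpow_mul (by positivity),
          Real.rpow_natCast, rate_eq, Real.mul_rpow hη0.le (Real.exp_pos _).le,
          ← Real.exp_mul, one_mul]
        have e1 : (1 - ε) = η * η ^ q := by
          rw [← hηq, Real.rpow_add hη0, Real.rpow_one]
        rw [e1]
        have h3 : 0 < η ^ q := Real.rpow_pos_of_pos hη0 _
        have h4 : 0 < Real.exp q := Real.exp_pos _
        have e2 : (η * η ^ q * (J p s / gamma p)) ^ n *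
            (ratio K S ^ q / (η ^ q * Real.exp q) ^ n) * (Real.exp q * gamma p / η) ^ n =
            ratio K S ^ q * ((η * η ^ q * (J p s / gamma p)) * (η ^ q * Real.exp q)⁻¹ *
              (Real.exp q * gamma p / η)) ^ n := by
          rw [mul_pow _ (Real.exp q * gamma p / η) n, mul_pow _ ((η ^ q * Real.exp q)⁻¹) n,
            inv_pow, div_eq_mul_inv]
          ring
        rw [e2]
        congr 2
        field_simp

lemma strict {p s κ : ℝ} (hp : 0 < p) (hs : 0 < s) (hκ : 0 < κ)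
    (h : rate p < κ ^ (1 + 1 / p) * J p s) :
    ∃ n₀ : ℕ, ∀ n : ℕ, n₀ ≤ n → ∀ K : Set (Fin n → ℝ), Body K →
      ∀ (a : Fin n → ℝ) (S : Matrix (Fin n) (Fin n) ℝ), Greatest K a S →
      AsymmetryAtMost K a s → κ ^ n ≤ ratio K S → simplexInf n p < mahlerVolume p K := by
  obtain ⟨n1, hn1⟩ := Pool.Agent.TH649.LP.II_lt hp h
  refine ⟨max n1 1, fun n hn K hK a S hE hA hκK => ?_⟩
  have hn_1 : n1 ≤ n := (le_max_left _ _).trans hn
  have hn_3 : 1 ≤ n := (le_max_right _ _).trans hn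
  have hJ : 0 < J p s := Pool.Agent.Run7.h304.VR.J_pos hp hs
  have hI : simplexInf n p < ENNReal.ofReal ((κ ^ (1 + 1 / p) * J p s) ^ n) := hn1 n hn_1
  refine (lt_of_lt_of_le hI ?_).trans_le (main_all hn_3 hK hE hs hA hp)
  apply ENNReal.ofReal_le_ofReal
  rw [mul_pow]
  apply mul_le_mul_of_nonneg_right _ (by positivity)
  calc (κ ^ (1 + 1 / p)) ^ n = (κ ^ n) ^ (1 + 1 / p) := by
        rw [← Real.rpow_natCast, ← Real.rpow_mul hκ.le, mul_comm, Real.rpow_mul hκ.le,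
          Real.rpow_natCast]
    _ ≤ ratio K S ^ (1 + 1 / p) := Real.rpow_le_rpow (by positivity) hκK (by positivity)

/-- a symmetric body: the ellipsoid may be centred -/
lemma centre {n : ℕ} {K : Set (Fin n → ℝ)} (hK : Body K) {z : Fin n → ℝ}
    (hz : ∀ x ∈ K, (2:ℝ) • z - x ∈ K) {a : Fin n → ℝ} {S : Matrix (Fin n) (Fin n) ℝ}
    (hE : Greatest K a S) : Greatest K z S ∧ AsymmetryAtMost K z 1 := by
  refine ⟨⟨?_, hE.2⟩, ?_⟩
  · intro x hx
    have h1 := hE.1 x hx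
    have h2 := hz _ (hE.1 (-x) (by simpa using hx))
    have h3 := hK.1 h1 h2 (by norm_num : (0:ℝ) ≤ 1 / 2) (by norm_num : (0:ℝ) ≤ 1 / 2)
      (by norm_num)
    have e : (1 / 2 : ℝ) • (a + S.mulVec x) + (1 / 2 : ℝ) • ((2:ℝ) • z - (a + S.mulVec (-x))) =
        z + S.mulVec x := by
      rw [Matrix.mulVec_neg]
      module
    rwa [e] at h3
  · intro x hx
    have h1 := hz x hx
    have e : z + (1:ℝ)⁻¹ • (z - x) = (2:ℝ) • z - x := by
      rw [inv_one]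
      module
    rw [e]
    exact h1

/-- **The `L^p`-Mahler volume, the ellipsoid of greatest volume and the asymmetry.** -/
theorem result :
    -- (1) every body has an ellipsoid of greatest volume, and the asymmetry about the centre of
    -- each such ellipsoid is at most `n`
    (∀ n : ℕ, 1 ≤ n → ∀ K : Set (Fin n → ℝ), Body K → (∃ a S, Greatest K a S) ∧
      ∀ a S, Greatest K a S → AsymmetryAtMost K a n) ∧
    -- (2) the inequality, for all bodies, all positions and all `p ∈ (0,∞]`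
    (∀ n : ℕ, 1 ≤ n → ∀ K : Set (Fin n → ℝ), Body K →
      ∀ (a : Fin n → ℝ) (S : Matrix (Fin n) (Fin n) ℝ), Greatest K a S →
      ∀ s : ℝ, 0 < s → AsymmetryAtMost K a s →
        (∀ p : ℝ, 0 < p →
          ENNReal.ofReal (ratio K S ^ (1 + 1 / p) * J p s ^ n) ≤ mahlerVolume p K) ∧
        ENNReal.ofReal (ratio K S * (1 + 1 / s) ^ n) ≤ mahlerInf K) ∧
    -- (3) `J_p(s) ≥ γ(p)`, so that always `M_p(K) ≥ (|K|/det S)^(1+1/p) γ(p)^n`
    (∀ p s : ℝ, 0 < p → 0 < s → gamma p ≤ J p s) ∧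
    (∀ p s s' : ℝ, 0 < p → 0 < s → s ≤ s' → J p s' ≤ J p s) ∧
    -- (4) equality for the cubes
    (∀ n : ℕ, Greatest (cube n) 0 1 ∧ AsymmetryAtMost (cube n) 0 1 ∧ ∀ p : ℝ, 0 < p →
      mahlerVolume p (cube n) = ENNReal.ofReal (ratio (cube n) 1 ^ (1 + 1 / p) * J p 1 ^ n)) ∧
    -- (5) the inequality of Q1 up to `(1-ε)^n` and the quotient of the volume ratios of `K` and of
    -- the simplex
    (∀ p ε : ℝ, 0 < p → 0 < ε → ε < 1 → ∃ n₀ : ℕ, ∀ n : ℕ, n₀ ≤ n →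
      ∀ K : Set (Fin n → ℝ), Body K →
      ∀ (a : Fin n → ℝ) (S : Matrix (Fin n) (Fin n) ℝ), Greatest K a S → ∀ s : ℝ, 0 < s →
      AsymmetryAtMost K a s → ∀ (a' : Fin n → ℝ) (S' : Matrix (Fin n) (Fin n) ℝ),
      Greatest (simplex n) a' S' →
      ENNReal.ofReal (((1 - ε) * (J p s / gamma p)) ^ n *
        (ratio K S / ratio (simplex n) S') ^ (1 + 1 / p)) * simplexInf n p ≤
          mahlerVolume p K) ∧
    (∀ n : ℕ, 1 ≤ n → ∀ (a : Fin n → ℝ) (S : Matrix (Fin n) (Fin n) ℝ),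
      Greatest (simplex n) a S → (n : ℝ) ^ n / n.factorial ≤ ratio (simplex n) S) ∧
    -- (6) the inequality of Q1, strictly, in high dimensions and all positions
    (∀ p s κ : ℝ, 0 < p → 0 < s → 0 < κ → rate p < κ ^ (1 + 1 / p) * J p s →
      ∃ n₀ : ℕ, ∀ n : ℕ, n₀ ≤ n → ∀ K : Set (Fin n → ℝ), Body K →
        ∀ (a : Fin n → ℝ) (S : Matrix (Fin n) (Fin n) ℝ), Greatest K a S →
        AsymmetryAtMost K a s → κ ^ n ≤ ratio K S → simplexInf n p < mahlerVolume p K) ∧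
    -- in particular, for every `p`, for the symmetric bodies of volume ratio nearly that of the cube
    (∀ p : ℝ, 0 < p → ∃ κ : ℝ, 0 < κ ∧ κ < 2 ∧ ∃ n₀ : ℕ, ∀ n : ℕ, n₀ ≤ n →
      ∀ K : Set (Fin n → ℝ), Body K → ∀ z : Fin n → ℝ, (∀ x ∈ K, (2:ℝ) • z - x ∈ K) →
        ∀ (a : Fin n → ℝ) (S : Matrix (Fin n) (Fin n) ℝ), Greatest K a S →
        κ ^ n ≤ ratio K S → simplexInf n p < mahlerVolume p K) ∧
    -- (7) the volume ratio of the bodies of asymmetry `s` about the centre of the ellipsoid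
    (∀ n : ℕ, 1 ≤ n → ∀ K : Set (Fin n → ℝ), Body K →
      ∀ (a : Fin n → ℝ) (S : Matrix (Fin n) (Fin n) ℝ), Greatest K a S →
      ∀ s : ℝ, 0 < s → AsymmetryAtMost K a s → ∀ u : ℝ, ratio K S ≤ strip s u ^ n) := by
  refine ⟨fun n hn K hK => ⟨?_, fun a S hE x hx => ?_⟩, fun n hn K hK a S hE s hs hA =>
    ⟨fun p hp => main_all hn hK hE hs hA hp, main_inf hn hK hE hs hA⟩,
    fun p s hp hs => Pool.Agent.Run7.h304.VR.J_ge hp hs,
    fun p s s' hp hs h => Pool.Agent.Run7.h304.VR.J_anti hp hs h,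
    fun n => ⟨maxEll.2 (Pool.Agent.Run7.h304.VR.cube_maxEll n), ?_, fun p hp => ?_⟩,
    fun p ε hp hε hε1 => up_to hp hε hε1, fun n hn a S hE => simplex_ratio hn hE,
    fun p s κ hp hs hκ h => strict hp hs hκ h, fun p hp => ?_,
    fun n hn K hK a S hE s hs hA u => ?_⟩
  · obtain ⟨a, S, h⟩ := Pool.Agent.Run7.h304.VR.exists_maxEll hK.2.1 hK.2.2
    exact ⟨a, S, maxEll.2 h⟩
  · exact Pool.Agent.Run7.h304.VR.asym_n' hn hK.2.1 hK.1 (maxEll.1 hE) hx
  · intro x hx i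
    have h1 := hx i
    simp only [inv_one, one_smul, zero_add, zero_sub, Pi.neg_apply, mem_Icc] at h1 ⊢
    constructor <;> linarith [h1.1, h1.2]
  · exact Pool.Agent.Run7.h304.VR.cube_mahler n hp
  · have h1 := Pool.Agent.Run7.h304.VR.cube_rate hp
    have h2 : Continuous fun κ : ℝ => κ ^ (1 + 1 / p) * J p 1 :=
      (Real.continuous_rpow_const (by positivity)).mul continuous_const
    have h3 : ∀ᶠ κ : ℝ in 𝓝 2, rate p < κ ^ (1 + 1 / p) * J p 1 :=
      (h2.tendsto 2).eventually_const_lt h1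
    have h4 : ∀ᶠ κ : ℝ in 𝓝[<] 2, rate p < κ ^ (1 + 1 / p) * J p 1 ∧ 0 < κ ∧ κ < 2 := by
      filter_upwards [h3.filter_mono nhdsWithin_le_nhds, self_mem_nhdsWithin,
        (eventually_gt_nhds (show (0:ℝ) < 2 by norm_num)).filter_mono nhdsWithin_le_nhds]
        with κ h5 h6 h7 using ⟨h5, h7, h6⟩
    obtain ⟨κ, h5, h6, h7⟩ := h4.exists
    obtain ⟨n0, hn0⟩ := strict hp one_pos h6 h5
    refine ⟨κ, h6, h7, n0, fun n hn K hK z hz a S hE hκ => ?_⟩
    obtain ⟨h8, h9⟩ := centre hK hz hE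
    exact hn0 n hn K hK z S h8 h9 hκ
  · have h1 := Pool.Agent.Run7.h304.VR.vol_le hn hK.2.1 hK.1 (maxEll.1 hE) hs hA u
    unfold ratio
    rw [div_le_iff₀ hE.2.1, mul_comm]
    exact h1

end Pool.Agent.Results.MP_5f4cdd_gt.EllipsoidVolumeRatio
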