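import Pool.Agent.Run7.h434.GM7

/-!
# Gaussian moments and the non-symmetric `L^p`-Mahler inequality, all `p > 0`

Let `b(p) = 2π (1+p)^((1+p)/(2p)) / √p` be the exponential rate of the Euclidean balls and
`r(p) = e^(1+1/p) p^(1/p) Γ(1+1/p)` that of the simplices (starting result `Cones`).

* For every compact `K` of positive volume, in every position, every linear isomorphism `T` and every
  point `a`, Hoelder's inequality with a Gaussian weight gives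

    `M_p(K) ≥ |T K| (b(p)/√(2π))^n exp(|T a|²/2) (E_K exp(p |T(x-a)|²/2))^(-1/p)`.

  As `p → 0` this is sharp for every `K` (the best `T` gives `L_K^(-n)`).
* `√(2π/e) r(p) ≤ b(p)` for ALL `p > 0`, and uniformly in `n` and `p`,
  `inf_x M_p(Δ_n - x) < e^(1/8) (e^(3/2)/√(8π) b(p))^n`.
* Hence Q1 holds strictly in high dimensions, for all exponents in `(0, q]` with the same condition,
  for all `K` with `E_K exp(q |T(x-a)|²/2) ≤ (|T K| exp(|T a|²/2) / (c √e)^n)^q`, `c > 1`.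
* Examples: bodies in an ellipsoid `E` (with any centre) with `|E| ≤ c^n |K|`, `c < √(2π/e)`, for every
  `p > 0`, and for `n ≥ 400` and `|E| ≤ (11/10)^n |K|` for all `p > 0` at once; bodies in a
  parallelepiped `P`, `|P| ≤ (107/100)^n |K|`, for `p ≤ 2`, and for all `p > 0` if they have a centre of
  symmetry; all bodies with a centre of symmetry which satisfy the moment condition with `q = 2`.

The bound for the rates rests on the sharp inequality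
`Γ(1+s) ≤ √(2πe) (1+s)^((1+s)/2) s^(s/2) e^(-1-s)` for all `s > 0`.
-/

set_option autoImplicit false

noncomputable section

open MeasureTheory Set Filter
open scoped ENNReal Pointwise Topology

namespace Pool.Agent.Results.MP_5f4cdd_gt.GaussianMoments

/-- convex bodies in `ℝⁿ` (in any position) -/
def Body {n : ℕ} (K : Set (Fin n → ℝ)) : Prop := Convex ℝ K ∧ IsCompact K ∧ (interior K).Nonempty

/-- The `L^p`-Mahler volume `M_p(K) = vol(K) ∫ exp(-h_{p,K}(y)) dy` for `0 < p < ∞`, where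
`exp(-h_{p,K}(y)) = ((1/vol K) ∫_K exp(p⟨x,y⟩) dx)^(-1/p)`. -/
def mahlerVolume {n : ℕ} (p : ℝ) (K : Set (Fin n → ℝ)) : ℝ≥0∞ :=
  volume K * ∫⁻ y : Fin n → ℝ, ENNReal.ofReal
    (((∫ x in K, Real.exp (p * ∑ i, x i * y i)) / (volume K).toReal) ^ (-(1 / p)))

/-- the standard simplex `Δ_n` -/
def simplex (n : ℕ) : Set (Fin n → ℝ) := {z | (∀ i, 0 ≤ z i) ∧ ∑ i, z i ≤ 1}

/-- the infimum of `M_p(Δ_n - x)` over `x ∈ Δ_n` -/
def simplexInf (n : ℕ) (p : ℝ) : ℝ≥0∞ :=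
  ⨅ x ∈ simplex n, mahlerVolume p ((fun z : Fin n → ℝ => z - x) '' simplex n)

/-- the rate of the simplices, `r(p) = e^(1+1/p) p^(1/p) Γ(1+1/p)` -/
def rate (p : ℝ) : ℝ := Real.exp (1 + 1 / p) * p ^ (1 / p) * Real.Gamma (1 + 1 / p)

/-- the rate of the Euclidean balls, `b(p) = 2π (1+p)^((1+p)/(2p)) / √p` -/
def ballRate (p : ℝ) : ℝ := 2 * Real.pi * (1 + p) ^ ((1 + p) / (2 * p)) / Real.sqrt p

/-- the Gaussian moment `(1/vol K) ∫_K exp(q |T(x - a)|²/2) dx` -/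
def gaussMoment {n : ℕ} (q : ℝ) (K : Set (Fin n → ℝ)) (T : (Fin n → ℝ) ≃ₗ[ℝ] (Fin n → ℝ))
    (a : Fin n → ℝ) : ℝ :=
  (∫ x in K, Real.exp (q / 2 * ∑ i, (T (x - a)) i ^ 2)) / volume.real K

/-- the threshold `vol(T K) exp(|T a|²/2) / (c √e)^n` -/
def threshold {n : ℕ} (c : ℝ) (K : Set (Fin n → ℝ)) (T : (Fin n → ℝ) ≃ₗ[ℝ] (Fin n → ℝ))
    (a : Fin n → ℝ) : ℝ :=
  volume.real (T '' K) * Real.exp ((∑ i, (T a) i ^ 2) / 2) / (c * Real.sqrt (Real.exp 1)) ^ n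

/-- the ellipsoid `{x : |T(x - a)| ≤ 1}` with centre `a` -/
def ellipsoid {n : ℕ} (T : (Fin n → ℝ) ≃ₗ[ℝ] (Fin n → ℝ)) (a : Fin n → ℝ) : Set (Fin n → ℝ) :=
  {x | ∑ i, (T (x - a)) i ^ 2 ≤ 1}

/-- the parallelepiped `{x : |T(x - a)_i| ≤ 1 for all i}` with centre `a` -/
def parallelepiped {n : ℕ} (T : (Fin n → ℝ) ≃ₗ[ℝ] (Fin n → ℝ)) (a : Fin n → ℝ) :
    Set (Fin n → ℝ) :=
  {x | ∀ i, |(T (x - a)) i| ≤ 1}

/-- the polynomial factor `(n/2)^(n/2) e^(-n/2) / Γ(1+n/2)` -/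
def loss (n : ℕ) : ℝ :=
  ((n : ℝ) / 2) ^ ((n : ℝ) / 2) * Real.exp (-((n : ℝ) / 2)) / Real.Gamma (1 + (n : ℝ) / 2)

/-- **Gaussian moments and the non-symmetric `L^p`-Mahler inequality.** -/
theorem result :
    -- (1) the inequality, for all compact sets of positive volume, in all positions
    (∀ (n : ℕ) (p : ℝ), 0 < p → ∀ K : Set (Fin n → ℝ), IsCompact K → volume K ≠ 0 →
      ∀ (T : (Fin n → ℝ) ≃ₗ[ℝ] (Fin n → ℝ)) (a : Fin n → ℝ),
        ENNReal.ofReal (volume.real (T '' K) * ((ballRate p / Real.sqrt (2 * Real.pi)) ^ n *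
          Real.exp ((∑ i, (T a) i ^ 2) / 2) * gaussMoment p K T a ^ (-(1 / p)))) ≤
            mahlerVolume p K) ∧
    -- (2) the rates of simplices and balls; the simplex, uniformly in the dimension and `p`
    (∀ p : ℝ, 0 < p → Real.sqrt (2 * Real.pi / Real.exp 1) * rate p ≤ ballRate p) ∧
    (∀ n : ℕ, 1 ≤ n → ∀ p : ℝ, 0 < p → simplexInf n p < ENNReal.ofReal (Real.exp (1 / 8) *
      (Real.exp (3 / 2) / Real.sqrt (8 * Real.pi) * ballRate p) ^ n)) ∧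
    -- (3) the inequality of Q1, strictly, under a condition on one Gaussian moment
    (∀ p c : ℝ, 0 < p → 1 < c → ∃ n₀ : ℕ, ∀ n : ℕ, n₀ ≤ n → ∀ K : Set (Fin n → ℝ), IsCompact K →
      volume K ≠ 0 → ∀ q : ℝ, p ≤ q → ∀ (T : (Fin n → ℝ) ≃ₗ[ℝ] (Fin n → ℝ)) (a : Fin n → ℝ),
        gaussMoment q K T a ≤ threshold c K T a ^ q → simplexInf n p < mahlerVolume p K) ∧
    (∀ n : ℕ, 5 ≤ n → ∀ c : ℝ, 7 / 5 ≤ c → ∀ K : Set (Fin n → ℝ), IsCompact K → volume K ≠ 0 →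
      ∀ q : ℝ, ∀ (T : (Fin n → ℝ) ≃ₗ[ℝ] (Fin n → ℝ)) (a : Fin n → ℝ),
        gaussMoment q K T a ≤ threshold c K T a ^ q →
          ∀ p : ℝ, 0 < p → p ≤ q → simplexInf n p < mahlerVolume p K) ∧
    -- (4) bodies in ellipsoids, in all positions, for all `p`
    (∀ n : ℕ, 1 ≤ n → Real.exp (-1) / (1 + (n : ℝ) / 2) ≤ loss n ∧
      ∀ p : ℝ, 0 < p → ∀ K : Set (Fin n → ℝ), IsCompact K → volume K ≠ 0 →
      ∀ (T : (Fin n → ℝ) ≃ₗ[ℝ] (Fin n → ℝ)) (a : Fin n → ℝ), K ⊆ ellipsoid T a →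
        0 < volume.real (ellipsoid T a) ∧
        ENNReal.ofReal (loss n * (volume.real K / volume.real (ellipsoid T a)) *
          Real.exp ((n : ℝ) / 2 * ∑ i, (T a) i ^ 2) * ballRate p ^ n) ≤ mahlerVolume p K) ∧
    ((3 : ℝ) / 2 < Real.sqrt (2 * Real.pi / Real.exp 1) ∧
      ∀ p c : ℝ, 0 < p → 0 < c → c < Real.sqrt (2 * Real.pi / Real.exp 1) →
      ∃ n₀ : ℕ, ∀ n : ℕ, n₀ ≤ n → ∀ K : Set (Fin n → ℝ), IsCompact K → volume K ≠ 0 →
      ∀ (T : (Fin n → ℝ) ≃ₗ[ℝ] (Fin n → ℝ)) (a : Fin n → ℝ), K ⊆ ellipsoid T a →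
        volume.real (ellipsoid T a) ≤ c ^ n * volume.real K →
          simplexInf n p < mahlerVolume p K) ∧
    (∀ n : ℕ, 400 ≤ n → ∀ K : Set (Fin n → ℝ), IsCompact K → volume K ≠ 0 →
      ∀ (T : (Fin n → ℝ) ≃ₗ[ℝ] (Fin n → ℝ)) (a : Fin n → ℝ), K ⊆ ellipsoid T a →
        volume.real (ellipsoid T a) ≤ (11 / 10) ^ n * volume.real K →
          ∀ p : ℝ, 0 < p → simplexInf n p < mahlerVolume p K) ∧
    -- (5) convex bodies in parallelepipeds; `p ≤ 2` or a centre of symmetry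
    (∀ p : ℝ, 0 < p → ∃ n₀ : ℕ, ∀ n : ℕ, n₀ ≤ n → ∀ K : Set (Fin n → ℝ), Body K →
      (p ≤ 2 ∨ ∃ w : Fin n → ℝ, ∀ x ∈ K, (2 : ℝ) • w - x ∈ K) →
      ∀ (T : (Fin n → ℝ) ≃ₗ[ℝ] (Fin n → ℝ)) (a : Fin n → ℝ), K ⊆ parallelepiped T a →
        volume.real (parallelepiped T a) ≤ (107 / 100) ^ n * volume.real K →
          simplexInf n p < mahlerVolume p K) ∧
    -- (6) bodies with a centre of symmetry: one condition for all `p`
    (∀ p c : ℝ, 0 < p → 1 < c → ∃ n₀ : ℕ, ∀ n : ℕ, n₀ ≤ n → ∀ K : Set (Fin n → ℝ), Body K →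
      ∀ w : Fin n → ℝ, (∀ x ∈ K, (2 : ℝ) • w - x ∈ K) →
      ∀ (T : (Fin n → ℝ) ≃ₗ[ℝ] (Fin n → ℝ)) (a : Fin n → ℝ),
        gaussMoment 2 K T a ≤ threshold c K T a ^ (2 : ℝ) →
          simplexInf n p < mahlerVolume p K) := by
  refine ⟨?_, ?_, ?_, ?_, ?_, ?_, ⟨Run7.h434.GM.three_half, ?_⟩, ?_, ?_, ?_⟩
  · intro n p hp K hc hv T a
    exact Run7.h434.GM.momT hc hv hp T a
  · intro p hp
    exact Run7.h434.GM.eps_le' hp
  · intro n hn p hp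
    exact Run7.h434.GM.II_unif hn hp
  · intro p c hp hc1
    exact Run7.h434.GM.crit hp hc1
  · intro n hn c hc1 K hc hv q T a h p hp hpq
    exact Run7.h434.GM.crit_unif hc1 hn hc hv hp hpq T a h
  · intro n hn
    refine ⟨Run7.h434.GM.sg_half hn, fun p hp K hc hv T a hK => ?_⟩
    exact Run7.h434.GM.in_ell hn hc hv hp T a hK
  · intro p c hp hc0 hc1
    exact Run7.h434.GM.ell_asym hp hc0 hc1
  · intro n hn K hc hv T a hK hV p hp
    exact Run7.h434.GM.ell_unif hn hp hc hv T a hK hV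
  · intro p hp
    obtain ⟨n0, hn0⟩ := Run7.h434.GM.par_thm hp
    exact ⟨n0, fun n hn K hK hw T a h1 h2 => hn0 n hn K hK.1 hK.2.1 hK.2.2 hw T a h1 h2⟩
  · intro p c hp hc1
    obtain ⟨n0, hn0⟩ := Run7.h434.GM.symm hp hc1
    exact ⟨n0, fun n hn K hK w hw T a h => hn0 n hn K hK.1 hK.2.1 hK.2.2 w hw T a h⟩

end Pool.Agent.Results.MP_5f4cdd_gt.GaussianMoments
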