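import Pool.Agent.Run7.h434.ST5

/-!
# Linear stability of the non-symmetric `L^p`-Mahler inequality for all `p ∈ [P, ∞]`

The exponent `p = ∞` is included: there `M_∞(K) = n! |K| |K°|`, the inequality is Mahler's
inequality for all convex bodies, and the result is its linear stability.

Outline.  In the position in which the smallest circumscribed simplex of `K` is the centred simplex
`Δ` the inequality `∫_(Δ∖K) w_p ≥ (p + 1 + η p) |Δ∖K|`, with a gain of order `p`, is proved for all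
large `p` near `Δ`; it gives `M_p(K) ≥ (1 + c |Δ∖K|/|Δ|) M_p(Δ)` with `c` independent of `p`.  Away
from simplices one uses compactness and Mahler's inequality with its case of equality (library,
`TH537.EQ`), and on compact intervals of exponents the local uniformity of starting work
(`N563.UL`).  The case `p = ∞` follows by a limit.
-/

set_option autoImplicit false

noncomputable section

open MeasureTheory Set Filter Topology
open scoped ENNReal

namespace Pool.Agent.Results.MP_5f4cdd_gt.StabilityToInfinity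

/-- convex bodies in `ℝⁿ` (in any position) -/
def Body {n : ℕ} (K : Set (Fin n → ℝ)) : Prop := Convex ℝ K ∧ IsCompact K ∧ (interior K).Nonempty

open Classical in
/-- The `L^p`-Mahler volume `M_p(K) = vol(K) ∫ exp(-h_{p,K}(y)) dy` for `0 < p ≤ ∞`, where
`exp(-h_{p,K}(y)) = ((1/vol K) ∫_K exp(p⟨x,y⟩) dx)^(-1/p)` for `p < ∞`, and
`h_{∞,K}(y) = sup_{x ∈ K} ⟨x,y⟩`. -/
def mahlerVolume {n : ℕ} (p : ℝ≥0∞) (K : Set (Fin n → ℝ)) : ℝ≥0∞ :=
  if p = ⊤ then
    volume K * ∫⁻ y : Fin n → ℝ, ENNReal.ofReal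
      (Real.exp (-(sSup ((fun x : Fin n → ℝ => ∑ i, x i * y i) '' K))))
  else
    volume K * ∫⁻ y : Fin n → ℝ, ENNReal.ofReal
      (((∫ x in K, Real.exp (p.toReal * ∑ i, x i * y i)) / (volume K).toReal) ^ (-(1 / p.toReal)))

/-- the standard simplex `Δ_n` -/
def simplex (n : ℕ) : Set (Fin n → ℝ) := {z | (∀ i, 0 ≤ z i) ∧ ∑ i, z i ≤ 1}

/-- the infimum of `M_p(Δ_n - x)` over `x ∈ Δ_n` -/
def simplexInf (n : ℕ) (p : ℝ≥0∞) : ℝ≥0∞ :=
  ⨅ x ∈ simplex n, mahlerVolume p ((fun z : Fin n → ℝ => z - x) '' simplex n)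

/-- `K` is a simplex with centroid at the origin -/
def CentredSimplex {n : ℕ} (K : Set (Fin n → ℝ)) : Prop :=
  ∃ v : Fin (n + 1) → (Fin n → ℝ), AffineIndependent ℝ v ∧ ∑ i, v i = 0 ∧
    K = convexHull ℝ (Set.range v)

/-- the smallest volume of a simplex (hull of at most `n + 1` points) containing `K` -/
def simplexHullVolume {n : ℕ} (K : Set (Fin n → ℝ)) : ℝ :=
  sInf {v | ∃ Q : Finset (Fin n → ℝ), Q.card ≤ n + 1 ∧ K ⊆ convexHull ℝ (Q : Set (Fin n → ℝ)) ∧
    v = (volume (convexHull ℝ (Q : Set (Fin n → ℝ)))).toReal}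

/-- the deviation `1 - |K|/|T|` of `K` from simplices, `T` a smallest simplex containing `K` -/
def deviation {n : ℕ} (K : Set (Fin n → ℝ)) : ℝ := 1 - (volume K).toReal / simplexHullVolume K

/-- good exponents: Q1 holds for `p`, with equality exactly for the simplices with centroid at the
origin -/
def Good (n : ℕ) (p : ℝ≥0∞) : Prop :=
  ∀ K : Set (Fin n → ℝ), Body K → simplexInf n p ≤ mahlerVolume p K ∧
    (mahlerVolume p K = simplexInf n p ↔ CentredSimplex K)

/-- linear stability: `M_p(K) ≥ (1 + c dev K) inf_x M_p(Δ_n - x)` for all `K` -/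
def Stable (n : ℕ) (c : ℝ) (p : ℝ≥0∞) : Prop :=
  ∀ K : Set (Fin n → ℝ), Body K →
    ENNReal.ofReal (1 + c * deviation K) * simplexInf n p ≤ mahlerVolume p K

/-- the polar set -/
def polar {n : ℕ} (K : Set (Fin n → ℝ)) : Set (Fin n → ℝ) := {y | ∀ x ∈ K, ∑ i, x i * y i ≤ 1}

open Pool.Agent.H131R5.LM (Mp Sn)
open Pool.Agent.W570.AV (mah tr sx)
open Run7.h434.ST

variable {n : ℕ}

lemma body_iff {K : Set (Fin n → ℝ)} (h : Body K) : Pool.Agent.N563.SE.Body K :=
  ⟨h.2.1, h.1, h.2.2⟩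

lemma iff_body {K : Set (Fin n → ℝ)} (h : Pool.Agent.N563.SE.Body K) : Body K :=
  ⟨h.conv, h.cpt, h.int⟩

lemma mv_fin {p : ℝ≥0∞} (hp : p ≠ ⊤) (K : Set (Fin n → ℝ)) :
    mahlerVolume p K = Mp p.toReal K := by
  unfold mahlerVolume
  rw [if_neg hp]
  rfl

lemma mv_top (K : Set (Fin n → ℝ)) : mahlerVolume ⊤ K = mah K := by
  unfold mahlerVolume
  rw [if_pos rfl]
  rfl

lemma inf_fin {p : ℝ≥0∞} (hp0 : p ≠ 0) (hp : p ≠ ⊤) : simplexInf n p = Mp p.toReal (Sn n) := by
  have hpp : 0 < p.toReal := ENNReal.toReal_pos hp0 hp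
  unfold simplexInf
  simp only [mv_fin hp]
  apply le_antisymm
  · have h2 := iInf₂_le (f := fun (x : Fin n → ℝ) (_ : x ∈ simplex n) =>
      Mp p.toReal ((fun z : Fin n → ℝ => z - x) '' simplex n))
      _ (Pool.Agent.H131R5.LM.center_mem (n := n))
    rw [← Pool.Agent.H131R5.LM.image_Dn]
    exact h2
  · refine le_iInf₂ fun x _ => ?_
    have h := Pool.Agent.TH649.LOC.Mp_shift_le (n := n) hpp (x - fun _ => 1 / ((n:ℝ) + 1))
    have e : (fun y : Fin n → ℝ => y - (x - fun _ => 1 / ((n:ℝ) + 1))) ''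
        Pool.Agent.H131R5.LM.Sn n = (fun z : Fin n → ℝ => z - x) '' simplex n := by
      rw [← Pool.Agent.H131R5.LM.image_Dn, Set.image_image]
      refine Set.image_congr fun z _ => ?_
      abel
    rw [e] at h
    exact h

lemma inf_top : simplexInf n ⊤ = mah (Sn n) := by
  unfold simplexInf
  simp only [mv_top]
  apply le_antisymm
  · have h2 := iInf₂_le (f := fun (x : Fin n → ℝ) (_ : x ∈ simplex n) =>
      mah ((fun z : Fin n → ℝ => z - x) '' simplex n))
      _ (Pool.Agent.H131R5.LM.center_mem (n := n))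
    rw [← Pool.Agent.H131R5.LM.image_Dn]
    exact h2
  · refine le_iInf₂ fun x _ => ?_
    rw [mah_Sn]
    exact (mah_tr x).1

lemma good_fin {p : ℝ≥0∞} (hp0 : p ≠ 0) (hp : p ≠ ⊤) :
    Good n p ↔ Pool.Agent.N563.UL.Good n p.toReal := by
  have hpp : 0 < p.toReal := ENNReal.toReal_pos hp0 hp
  constructor
  · intro h K hK
    have h1 := h K (iff_body hK)
    rw [inf_fin hp0 hp, mv_fin hp] at h1
    refine ⟨h1.1, fun he => ?_⟩
    obtain ⟨v, _, _, hv⟩ := h1.2.1 he
    classical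
    refine ⟨Finset.univ.image v, Finset.card_image_le.trans (by simp), ?_⟩
    rw [Finset.coe_image, Finset.coe_univ, Set.image_univ]
    exact hv
  · intro h K hK
    have h1 := h K (body_iff hK)
    rw [inf_fin hp0 hp, mv_fin hp]
    exact ⟨h1.1, fun he => Pool.Agent.N563.UL.hull_centred hpp (body_iff hK) (h1.2 he) he,
      fun hc => Pool.Agent.N563.UL.centred_eq hpp hc⟩

lemma stable_fin {c : ℝ} {p : ℝ≥0∞} (hp0 : p ≠ 0) (hp : p ≠ ⊤) :
    Stable n c p ↔ Pool.Agent.N563.UL.Stab n c p.toReal := by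
  unfold Stable
  rw [inf_fin hp0 hp]
  simp only [mv_fin hp]
  exact ⟨fun h K hK => h K (iff_body hK), fun h K hK => h K (body_iff hK)⟩

/-- one constant for all finite `p ≥ P` -/
lemma ray (hn : 1 ≤ n) {P : ℝ} (hP : 0 < P)
    (hg : ∀ p : ℝ, P ≤ p → Pool.Agent.N563.UL.Good n p) :
    ∃ c : ℝ, 0 < c ∧ ∀ p : ℝ, P ≤ p → Pool.Agent.N563.UL.Stab n c p := by
  rcases Nat.lt_or_ge n 2 with h | h
  · obtain rfl : n = 1 := by omega
    refine ⟨1, one_pos, fun p hp K hK => ?_⟩
    obtain ⟨Q, hQ, hKQ⟩ := Pool.Agent.TH649.LOC.dim_one hK.cpt hK.conv hK.int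
    have hd : Pool.Agent.N563.UL.dev K = 0 :=
      (Pool.Agent.N563.UL.dev_zero hK).2 ⟨Q, hQ, hKQ⟩
    rw [hd, mul_zero, add_zero, ENNReal.ofReal_one, one_mul]
    exact (Pool.Agent.TH649.LOC.hull_le (hP.trans_le hp) hK.int hQ hKQ).1
  · obtain ⟨m, rfl⟩ : ∃ m, n = m + 2 := ⟨n - 2, by omega⟩
    exact stab_ray m hP hg

/-- all exponents of `[P, ∞]` -/
lemma all_from (hn : 1 ≤ n) {P : ℝ} (hP : 0 < P)
    (hg : ∀ p : ℝ, P ≤ p → Pool.Agent.N563.UL.Good n p) :
    ∃ c : ℝ, 0 < c ∧ ∀ p : ℝ≥0∞, ENNReal.ofReal P ≤ p → Good n p ∧ Stable n c p := by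
  obtain ⟨c, hc, h⟩ := ray hn hP hg
  refine ⟨c, hc, fun p hp => ?_⟩
  by_cases hpt : p = ⊤
  · subst hpt
    refine ⟨fun K hK => ?_, fun K hK => ?_⟩
    · rw [mv_top, inf_top]
      have h1 := good_top hP h hc (body_iff hK)
      rw [Pool.Agent.TH649.LOC.centred_iff] at h1
      exact h1
    · rw [mv_top, inf_top]
      exact stab_top hP h hc.le (body_iff hK)
  · have h1 : P ≤ p.toReal := (ENNReal.ofReal_le_iff_le_toReal hpt).1 hp
    have hp0 : p ≠ 0 := by
      rintro rfl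
      rw [ENNReal.toReal_zero] at h1
      linarith
    exact ⟨(good_fin hp0 hpt).2 (hg _ h1), (stable_fin hp0 hpt).2 (h _ h1)⟩

/-- **Linear stability of the `L^p`-Mahler inequality for all `p ∈ [P, ∞]`.**  Let `n ≥ 1`.

* There are `P < ∞` and `c > 0` such that for all `p ∈ [P, ∞]` and all convex bodies `K` of `ℝⁿ`
  (in all positions) `M_p(K) ≥ (1 + c dev K) inf_x M_p(Δ_n - x)`, and equality holds in the
  inequality of Q1 exactly for the simplices with centroid at the origin.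
* The same with any `P > 0` such that all finite `p ≥ P` are good.
* For `p = ∞` this reads: `|K| |K°| ≥ (1 + c dev K) (n+1)^(n+1)/(n!)²` for all convex bodies with
  the origin in the interior. -/
theorem result (n : ℕ) (hn : 1 ≤ n) :
    (∃ P : ℝ, 0 < P ∧ ∃ c : ℝ, 0 < c ∧ ∀ p : ℝ≥0∞, ENNReal.ofReal P ≤ p →
      Good n p ∧ Stable n c p) ∧
    (∀ P : ℝ, 0 < P → (∀ p : ℝ, P ≤ p → Good n (ENNReal.ofReal p)) →
      ∃ c : ℝ, 0 < c ∧ ∀ p : ℝ≥0∞, ENNReal.ofReal P ≤ p → Good n p ∧ Stable n c p) ∧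
    (∃ c : ℝ, 0 < c ∧ ∀ K : Set (Fin n → ℝ), IsCompact K → Convex ℝ K →
      (0 : Fin n → ℝ) ∈ interior K →
        (1 + c * deviation K) * (((n : ℝ) + 1) ^ (n + 1) / (n.factorial : ℝ) ^ 2) ≤
          (volume K).toReal * (volume (polar K)).toReal) := by
  obtain ⟨P, hP, hg⟩ := Pool.Agent.N563.UL.good_large hn
  refine ⟨⟨P, hP, all_from hn hP hg⟩, fun P hP hg => all_from hn hP fun p hp => ?_, ?_⟩
  · have hp0 : 0 < p := hP.trans_le hp
    have h1 := (good_fin (by simpa using hp0) ENNReal.ofReal_ne_top).1 (hg p hp)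
    rwa [ENNReal.toReal_ofReal hp0.le] at h1
  · obtain ⟨c, hc, h⟩ := all_from hn hP hg
    refine ⟨c, hc, fun K hk hv h0 => ?_⟩
    have hK : Body K := ⟨hv, hk, ⟨0, h0⟩⟩
    have h1 := (h ⊤ le_top).2 K hK
    rw [mv_top, inf_top, mah_Sn] at h1
    have hd0 : 0 ≤ deviation K := Pool.Agent.N563.UL.dev_nonneg (body_iff hK)
    have hf0 : 0 ≤ 1 + c * deviation K := by
      have := mul_nonneg hc.le hd0
      linarith
    rw [← ENNReal.ofReal_mul hf0] at h1
    have e : mah K = volume K * (n.factorial * volume (polar K)) := by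
      have h2 := Pool.Agent.W570.AV.mah_eq hv hk h0
      have e0 : Pool.Agent.W570.AV.tr 0 K = K := by
        unfold Pool.Agent.W570.AV.tr
        simp
      rw [e0] at h2
      rw [h2]
      rfl
    rw [e] at h1
    have hpolt : volume (polar K) ≠ ⊤ := by
      have h3 : polar K = H801NS.pol K := rfl
      rw [h3]
      exact ((H801NS.t_POL n K ⟨hk, hv, h0⟩).1).comp.measure_lt_top.ne
    have h4 := ENNReal.toReal_mono (ENNReal.mul_ne_top hk.measure_lt_top.ne
      (ENNReal.mul_ne_top (ENNReal.natCast_ne_top _) hpolt)) h1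
    rw [ENNReal.toReal_ofReal (mul_nonneg hf0 (M0_pos n).le), ENNReal.toReal_mul,
      ENNReal.toReal_mul, ENNReal.toReal_natCast] at h4
    have hF : (0 : ℝ) < n.factorial := by positivity
    have e2 : (1 + c * deviation K) * (((n : ℝ) + 1) ^ (n + 1) / (n.factorial : ℝ) ^ 2) =
        (1 + c * deviation K) * M0 n / n.factorial := by
      unfold M0
      field_simp
    rw [e2, div_le_iff₀ hF]
    calc (1 + c * deviation K) * M0 n ≤ _ := h4
      _ = _ := by ring

end Pool.Agent.Results.MP_5f4cdd_gt.StabilityToInfinity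

end
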