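import Pool.Agent.Run7.h434.US6

/-!
# The non-symmetric `L^p`-Mahler inequality: linear stability, uniformly in `p ∈ (0, ∞]`, for
# planar bodies, polytopes with at most `n + 2` vertices, and all bodies built from them

The starting results of this problem prove the inequality of Q1 for all `p > 0` for a class of
bodies which contains the free sums of planar bodies and simplices (`PlanarSummands`) and is closed
under products with boxes, affine bijections and movements of parallel chords (`ChordMovements`),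
and for tree-like polytopes (`TreeLikeHulls`).  They say nothing about equality (except for
polytopes with at most `n + 2` vertices) or stability.

Here: for every `n` there is `c > 0` such that for ALL `p ∈ (0,∞]` and all bodies `K` of the class
`Generated n` (all these constructions, and also limits of bodies), and for all bodies near
simplices,

    M_p(K) ≥ (1 + c dev K) inf_x M_p(Δ_n - x),     dev K = 1 - |K|/|T|,

where `T` is a smallest simplex containing `K`, in all positions; equality holds in Q1 only for the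
simplices with centroid at the origin; and in the limit `p → 0`

    (1 + c dev K) L_K^n ≤ L_Δ^n

for the isotropic constants.  For `n = 2` this holds for all convex bodies, i.e. the critical
exponent of the starting result `SmallExponents` is `0` in the plane, with one constant of
stability for all exponents.

Proof.  Near simplices, and for all large `p`, this is known (`SmallExponents` and the hand-in
`StabilityToInfinity`; the constants depend on `n` only).  So let `p ≤ P(n)` and `dev K > δ(n)`.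
The alternative

    `dev K ≤ δ`   or   `M_p(K - z) ≥ (1 + c δ) inf_x M_p(Δ_n - x)` for all `z`

holds for simplices and is inherited by all constructions of the class.  The point is a movement
`K_t`, `t ∈ [-a, b]`, of the chords, with `dev K_0 > δ`: if `dev K_b ≤ δ`, then by continuity there
is `t ∈ (0, b]` with `dev K_t = δ`, and the local result gives the second alternative for `K_t`;
the same holds on the other side, and the inequality for two bodies `K_(-s)`, `K_t` implies it for
`K_0`.
-/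

set_option autoImplicit false

noncomputable section

open MeasureTheory Module Filter
open scoped ENNReal Topology

namespace Pool.Agent.Results.MP_5f4cdd_gt.UniformStability

/-- convex bodies in `ℝⁿ` (in any position) -/
def Body {n : ℕ} (K : Set (Fin n → ℝ)) : Prop := Convex ℝ K ∧ IsCompact K ∧ (interior K).Nonempty

open Classical in
/-- The `L^p`-Mahler volume `M_p(K) = vol(K) ∫ exp(-h_{p,K}(y)) dy` for `0 < p ≤ ∞`, where
`exp(-h_{p,K}(y)) = ((1/vol K) ∫_K exp(p⟨x,y⟩) dx)^(-1/p)` for `p < ∞`, and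
`h_{∞,K}(y) = sup_{x ∈ K} ⟨x,y⟩`. -/
def mahlerVolume {n : ℕ} (p : ℝ≥0∞) (K : Set (Fin n → ℝ)) : ℝ≥0∞ :=
  if p = ⊤ then
    volume K * ∫⁻ y : Fin n → ℝ, ENNReal.ofReal
      (Real.exp (-(sSup ((fun x : Fin n → ℝ => ∑ i, x i * y i) '' K))))
  else
    volume K * ∫⁻ y : Fin n → ℝ, ENNReal.ofReal
      (((∫ x in K, Real.exp (p.toReal * ∑ i, x i * y i)) / (volume K).toReal) ^ (-(1 / p.toReal)))

/-- the translate `K - z` -/
def shift {n : ℕ} (K : Set (Fin n → ℝ)) (z : Fin n → ℝ) : Set (Fin n → ℝ) := (fun x => x - z) '' K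

/-- the standard simplex `Δ_n` -/
def simplex (n : ℕ) : Set (Fin n → ℝ) := {z | (∀ i, 0 ≤ z i) ∧ ∑ i, z i ≤ 1}

/-- the infimum of `M_p(Δ_n - x)` over `x ∈ Δ_n` -/
def simplexInf (n : ℕ) (p : ℝ≥0∞) : ℝ≥0∞ :=
  ⨅ x ∈ simplex n, mahlerVolume p ((fun z : Fin n → ℝ => z - x) '' simplex n)

/-- `K` is a simplex with centroid at the origin -/
def CentredSimplex {n : ℕ} (K : Set (Fin n → ℝ)) : Prop :=
  ∃ v : Fin (n + 1) → (Fin n → ℝ), AffineIndependent ℝ v ∧ ∑ i, v i = 0 ∧
    K = convexHull ℝ (Set.range v)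

/-- the smallest volume of a simplex (hull of at most `n + 1` points) containing `K` -/
def simplexHullVolume {n : ℕ} (K : Set (Fin n → ℝ)) : ℝ :=
  sInf {v | ∃ Q : Finset (Fin n → ℝ), Q.card ≤ n + 1 ∧ K ⊆ convexHull ℝ (Q : Set (Fin n → ℝ)) ∧
    v = (volume (convexHull ℝ (Q : Set (Fin n → ℝ)))).toReal}

/-- the deviation `1 - |K|/|T|` of `K` from simplices, `T` a smallest simplex containing `K` -/
def deviation {n : ℕ} (K : Set (Fin n → ℝ)) : ℝ := 1 - (volume K).toReal / simplexHullVolume K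

/-- the centroid -/
def centroid {n : ℕ} (K : Set (Fin n → ℝ)) : Fin n → ℝ :=
  fun i => (∫ x in K, x i) / (volume K).toReal

/-- the covariance matrix of the uniform distribution on `K` -/
def covariance {n : ℕ} (K : Set (Fin n → ℝ)) : Matrix (Fin n) (Fin n) ℝ :=
  Matrix.of fun i j =>
    (∫ x in K, (x i - centroid K i) * (x j - centroid K j)) / (volume K).toReal

/-- the isotropic constant `L_K = (det Cov(K))^(1/(2n)) / vol(K)^(1/n)` -/
def isotropicConstant {n : ℕ} (K : Set (Fin n → ℝ)) : ℝ :=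
  (Real.sqrt (covariance K).det / (volume K).toReal) ^ (1 / (n : ℝ))

/-- the set `K_t = {x + t β(x) θ : x ∈ K}` -/
def move {n : ℕ} (θ : Fin n → ℝ) (β : (Fin n → ℝ) → ℝ) (t : ℝ) (K : Set (Fin n → ℝ)) :
    Set (Fin n → ℝ) := (fun x => x + (t * β x) • θ) '' K

/-- the velocities of the chords parallel to `θ`: continuous, and constant on the lines parallel
to `θ` -/
def IsVelocity {n : ℕ} (θ : Fin n → ℝ) (β : (Fin n → ℝ) → ℝ) : Prop :=
  Continuous β ∧ ∀ (x : Fin n → ℝ) (s : ℝ), β (x + s • θ) = β x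

/-- the product `K × [a_1,b_1] × … × [a_j,b_j] ⊆ ℝ^(n+j)` -/
def boxProduct {n j : ℕ} (K : Set (Fin n → ℝ)) (a b : Fin j → ℝ) : Set (Fin (n + j) → ℝ) :=
  {w | (fun i : Fin n => w (Fin.castAdd j i)) ∈ K ∧ ∀ i : Fin j, w (Fin.natAdd n i) ∈ Set.Icc (a i) (b i)}

/-- free sums of planar convex bodies and simplices: the hull of the union of convex bodies `A i`
which share the point `q`, lie in `q + V i` with `∑ dim V i ≤ n`, and are simplices if
`dim V i ≠ 2` -/
def IsFreeSum {n : ℕ} (K : Set (Fin n → ℝ)) : Prop :=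
  ∃ (m : ℕ) (V : Fin m → Submodule ℝ (Fin n → ℝ)) (A : Fin m → Set (Fin n → ℝ)) (q : Fin n → ℝ),
    ∑ i, finrank ℝ (V i) ≤ n ∧
    (∀ i, IsCompact (A i) ∧ Convex ℝ (A i) ∧ q ∈ A i ∧ ∀ x ∈ A i, x - q ∈ V i) ∧
    (∀ i, finrank ℝ (V i) = 2 ∨ ∃ S : Finset (Fin n → ℝ),
      S.card ≤ finrank ℝ (V i) + 1 ∧ A i = convexHull ℝ (S : Set (Fin n → ℝ))) ∧
    K = convexHull ℝ (⋃ i, A i) ∧ (interior K).Nonempty

/-- finite point sets built from single points by joins (cost one) and by glueing two sets whose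
convex hulls meet (no cost); the natural number is the total cost -/
inductive TreeLike {n : ℕ} : Set (Fin n → ℝ) → ℕ → Prop
  | point (x : Fin n → ℝ) : TreeLike {x} 0
  | join {A B : Set (Fin n → ℝ)} {a b : ℕ} : TreeLike A a → TreeLike B b →
      TreeLike (A ∪ B) (a + b + 1)
  | glue {A B : Set (Fin n → ℝ)} {a b : ℕ} : TreeLike A a → TreeLike B b →
      (convexHull ℝ A ∩ convexHull ℝ B).Nonempty → TreeLike (A ∪ B) (a + b)

/-- the smallest class of convex bodies which contains the free sums of planar convex bodies and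
simplices and the tree-like polytopes and is closed under products with boxes, affine bijections,
the passage from `K_{-a}` and `K_b` to the convex body `K = K_0`, and limits from outside -/
inductive Generated : (n : ℕ) → Set (Fin n → ℝ) → Prop
  | freeSum {n : ℕ} {K : Set (Fin n → ℝ)} (hK : IsFreeSum K) : Generated n K
  | treeLike {n : ℕ} {T : Set (Fin n → ℝ)} (hT : TreeLike T n)
      (hi : (interior (convexHull ℝ T)).Nonempty) : Generated n (convexHull ℝ T)
  | box {n j : ℕ} {K : Set (Fin n → ℝ)} (hK : Generated n K) {a b : Fin j → ℝ}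
      (hab : ∀ i, a i < b i) : Generated (n + j) (boxProduct K a b)
  | affine {n : ℕ} {K : Set (Fin n → ℝ)} (hK : Generated n K)
      (T : (Fin n → ℝ) ≃ₗ[ℝ] (Fin n → ℝ)) (z : Fin n → ℝ) : Generated n (shift (T '' K) z)
  | between {n : ℕ} {K : Set (Fin n → ℝ)} (hK : Body K) {θ : Fin n → ℝ}
      {β : (Fin n → ℝ) → ℝ} (hβ : IsVelocity θ β) {a b : ℝ} (ha : 0 < a) (hb : 0 < b)
      (h₁ : Generated n (move θ β (-a) K)) (h₂ : Generated n (move θ β b K)) : Generated n K
  | limit {n : ℕ} {K : Set (Fin n → ℝ)} (hK : Body K) {L : ℕ → Set (Fin n → ℝ)}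
      (hL : ∀ k, Generated n (L k)) (hKL : ∀ k, K ⊆ L k)
      (hv : Tendsto (fun k => volume (L k)) atTop (𝓝 (volume K))) : Generated n K

open Pool.Agent.H131R5.LM (Mp Sn)
open Pool.Agent.H131R5.LC (LB II LB_sub LB_sub' LB_image LB_core int_image hull_sub)
open Pool.Agent.W570.AV (mah)
open Pool.Agent.N563.UL (dev dev_nonneg dev_lt_one dev_zero dev_sh)
open Run7.h434.US

variable {n : ℕ}

/-! ### the class -/

lemma body_iff {K : Set (Fin n → ℝ)} (h : Body K) : Pool.Agent.N563.SE.Body K :=
  ⟨h.2.1, h.1, h.2.2⟩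

lemma iff_body {K : Set (Fin n → ℝ)} (h : Pool.Agent.N563.SE.Body K) : Body K :=
  ⟨h.conv, h.cpt, h.int⟩

lemma shift_body {K : Set (Fin n → ℝ)} (hK : Body K) (z : Fin n → ℝ) : Body (shift K z) :=
  iff_body (Pool.Agent.N563.SE.body_sh (body_iff hK) z)

lemma box_convex {n j : ℕ} {K : Set (Fin n → ℝ)} (hK : Convex ℝ K) (a b : Fin j → ℝ) :
    Convex ℝ (boxProduct K a b) := by
  intro x hx y hy s t hs ht hst
  refine ⟨hK hx.1 hy.1 hs ht hst, fun i => ?_⟩
  exact convex_Icc (𝕜 := ℝ) (a i) (b i) (hx.2 i) (hy.2 i) hs ht hst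

lemma freeSum_body {K : Set (Fin n → ℝ)} (hK : IsFreeSum K) : Body K := by
  obtain ⟨m, V, A, q, hV, hA, ht, rfl, hi⟩ := hK
  exact ⟨convex_convexHull ℝ _, Pool.Agent.W679.A.compact_UN fun i => (hA i).1, hi⟩

/-- free sums have every property with the five rules -/
lemma freeSum_G {G : Set (Fin n → ℝ) → Prop} (hG : GG G) {K : Set (Fin n → ℝ)}
    (hK : IsFreeSum K) : G K := by
  obtain ⟨m, V, A, q, hV, hA, ht, rfl, hi⟩ := hK
  classical
  have hcv : ∀ X : Set (Fin n → ℝ), Convex ℝ X → Convex ℝ ((fun x => x - q) '' X) := by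
    intro X hX
    have h1 := hX.translate (-q)
    have h2 : (fun z => -q + z) '' X = (fun x => x - q) '' X := by
      refine Set.image_congr fun z _ => ?_
      abel
    rwa [h2] at h1
  have hbody : convexHull ℝ (⋃ i, (fun x => x - q) '' A i) =
      (fun x => x - q) '' convexHull ℝ (⋃ i, A i) := by
    rw [hull_sub, Set.image_iUnion]
  have hint : (interior (convexHull ℝ (⋃ i, (fun x => x - q) '' A i))).Nonempty := by
    rw [hbody]
    have h2 : (fun x => x - q) '' interior (convexHull ℝ (⋃ i, A i)) =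
        interior ((fun x => x - q) '' convexHull ℝ (⋃ i, A i)) :=
      (Homeomorph.subRight q).image_interior _
    rw [← h2]
    exact hi.image _
  have h := Run7.h434.US.full hG V hV (fun i => (fun x => x - q) '' A i)
    (fun i => (hA i).1.image (by fun_prop)) (fun i => hcv _ (hA i).2.1)
    (fun i => ⟨q, (hA i).2.2.1, sub_self q⟩)
    (fun i => by rintro _ ⟨x, hx, rfl⟩; exact (hA i).2.2.2 x hx)
    (fun i => by
      rcases ht i with h | ⟨S, hS, hAS⟩
      · exact Or.inl h
      · refine Or.inr ⟨S.image (fun x => x - q), Finset.card_image_le.trans hS, ?_⟩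
        rw [hAS, hull_sub, Finset.coe_image])
    hint
  rw [hbody] at h
  exact hG.sub q h

lemma tree_TL {A : Set (Fin n → ℝ)} {a : ℕ} (h : TreeLike A a) :
    ∃ g : ℕ, Pool.Agent.Y589.TLA.TL A a g := by
  induction h with
  | point x => exact ⟨0, .point x⟩
  | join _ _ h1 h2 =>
    obtain ⟨g, h1⟩ := h1
    obtain ⟨k, h2⟩ := h2
    exact ⟨g + k, .join h1 h2⟩
  | glue _ _ hz h1 h2 =>
    obtain ⟨g, h1⟩ := h1
    obtain ⟨k, h2⟩ := h2
    exact ⟨g + k + 1, .glue h1 h2 hz⟩

/-- tree-like polytopes have every property with the five rules -/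
lemma tree_G {G : Set (Fin n → ℝ) → Prop} (hG : GG G) {T : Set (Fin n → ℝ)} (hT : TreeLike T n)
    (hi : (interior (convexHull ℝ T)).Nonempty) : G (convexHull ℝ T) := by
  obtain ⟨g, h⟩ := tree_TL hT
  exact Run7.h434.US.Tree.main hG g T n le_rfl h hi

lemma tree_body {T : Set (Fin n → ℝ)} {a : ℕ} (hT : TreeLike T a)
    (hi : (interior (convexHull ℝ T)).Nonempty) : Body (convexHull ℝ T) := by
  obtain ⟨g, h⟩ := tree_TL hT
  exact ⟨convex_convexHull ℝ _, h.fin.isCompact_convexHull ℝ, hi⟩

/-- the inequality of Q1, and the alternative for bodies far from simplices -/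
theorem generated {n : ℕ} {K : Set (Fin n → ℝ)} (h : Generated n K) :
    Body K ∧ (∀ p : ℝ, 0 < p → LB p (II n p) K) ∧
      (2 ≤ n → ∀ δ c P : ℝ, Cst n δ c P → ∀ p : ℝ, 0 < p → p ≤ P →
        Far p δ (ENNReal.ofReal (1 + c * δ) * II n p) K) := by
  induction h with
  | freeSum hK =>
    exact ⟨freeSum_body hK, fun p hp => freeSum_G (lb_GG hp) hK,
      fun _ δ c P hC p hp hpP => freeSum_G (far_GG' hC hp hpP) hK⟩
  | treeLike hT hi =>
    exact ⟨tree_body hT hi, fun p hp => tree_G (lb_GG hp) hT hi,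
      fun _ δ c P hC p hp hpP => tree_G (far_GG' hC hp hpP) hT hi⟩
  | @box n j K hK a b hab ih =>
    obtain ⟨hB, hLB, hF⟩ := ih
    rcases Nat.eq_zero_or_pos j with rfl | hj
    · have e : boxProduct K a b = K := Pool.Agent.TH649.LP.boxS_zero K a b
      rw [e]
      exact ⟨hB, hLB, hF⟩
    · have hbx : ∀ p : ℝ, 0 < p → LB p (ENNReal.ofReal (1 / Pool.Agent.TH649.LP.qN (n + j)) *
          II (n + j) p) (boxProduct K a b) := fun p hp =>
        (box_LB hp hB.2.1 hB.2.2 (hLB p hp) hj hab).2.2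
      have hbx' := box_LB one_pos hB.2.1 hB.2.2 (hLB 1 one_pos) hj hab
      have hq := Pool.Agent.TH649.LP.qN_pos (N := n + j) (by omega)
      have hq1 := Pool.Agent.TH649.LP.qN_le (N := n + j) (by omega)
      refine ⟨⟨box_convex hB.1 a b, hbx'.1, hbx'.2.1⟩, fun p hp z => ?_,
        fun hn δ c P hC p hp hpP _ => Or.inr fun z => ?_⟩
      · refine le_trans ?_ (hbx p hp z)
        calc II (n + j) p = ENNReal.ofReal 1 * II (n + j) p := by
              rw [ENNReal.ofReal_one, one_mul]
          _ ≤ _ := mul_le_mul' (ENNReal.ofReal_le_ofReal (by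
              rw [le_div_iff₀ hq]; linarith)) le_rfl
      · refine le_trans ?_ (hbx p hp z)
        exact mul_le_mul' (ENNReal.ofReal_le_ofReal hC.box) le_rfl
  | @affine n K hK T z ih =>
    obtain ⟨hB, hLB, hF⟩ := ih
    have hT : Continuous T := LinearMap.continuous_of_finiteDimensional T.toLinearMap
    have bT : Body (T '' K) :=
      ⟨hB.1.linear_image T.toLinearMap, hB.2.1.image hT, int_image T hB.2.2⟩
    refine ⟨shift_body bT z, fun p hp => LB_sub' z (LB_image hp T hB.2.1 hB.2.2 (hLB p hp)),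
      fun hn δ c P hC p hp hpP => ?_⟩
    exact (far_GG' hC hp hpP).sub' z (far_img hp (body_iff hB) T (hF hn δ c P hC p hp hpP))
  | @between n K hK θ β hβ a b ha hb h₁ h₂ ih₁ ih₂ =>
    exact ⟨hK, fun p hp => LB_core hp hK.1 hK.2.1 hK.2.2 hβ.1 hβ.2 ha hb (ih₂.2.1 p hp)
      (ih₁.2.1 p hp), fun hn δ c P hC p hp hpP => (far_GG' hC hp hpP).core hK.1 hK.2.1 hK.2.2
        hβ.1 hβ.2 ha hb ih₂.1.1 ih₁.1.1 (ih₂.2.2 hn δ c P hC p hp hpP)
        (ih₁.2.2 hn δ c P hC p hp hpP)⟩
  | @limit n K hK L hL hKL hv ih =>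
    have hvK : volume K ≠ ⊤ := hK.2.1.measure_lt_top.ne
    have hpos := Pool.Agent.N563.SE.Wp (body_iff hK)
    have happ : ∀ ε : ℝ, 0 < ε → ∃ k, (volume (L k)).toReal ≤ (1 + ε) * (volume K).toReal := by
      intro ε hε
      have h1 : Tendsto (fun k => (volume (L k)).toReal) atTop (𝓝 (volume K).toReal) :=
        (ENNReal.tendsto_toReal hvK).comp hv
      have h2 : ∀ᶠ k in atTop, (volume (L k)).toReal < (1 + ε) * (volume K).toReal := by
        apply h1.eventually_lt_const
        nlinarith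
      obtain ⟨k, hk⟩ := h2.exists
      exact ⟨k, hk.le⟩
    refine ⟨hK, fun p hp => (lb_GG hp).lim hK.1 hK.2.1 hK.2.2 fun ε hε => ?_,
      fun hn δ c P hC p hp hpP => (far_GG' hC hp hpP).lim hK.1 hK.2.1 hK.2.2 fun ε hε => ?_⟩
    · obtain ⟨k, hk⟩ := happ ε hε
      exact ⟨L k, (ih k).1.1, (ih k).1.2.1, hKL k, hk, (ih k).2.1 p hp⟩
    · obtain ⟨k, hk⟩ := happ ε hε
      exact ⟨L k, (ih k).1.1, (ih k).1.2.1, hKL k, hk, (ih k).2.2 hn δ c P hC p hp hpP⟩

/-- planar bodies belong to the class -/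
lemma planar {K : Set (Fin 2 → ℝ)} (hK : Body K) : Generated 2 K := by
  obtain ⟨q, hq⟩ := hK.2.2.mono interior_subset
  refine .freeSum ⟨1, fun _ => ⊤, fun _ => K, q, ?_, fun _ => ⟨hK.2.1, hK.1, hq, fun x _ =>
    Submodule.mem_top⟩, fun _ => Or.inl ?_, ?_, hK.2.2⟩
  · rw [Fin.sum_univ_one, finrank_top, Module.finrank_fin_fun]
  · rw [finrank_top, Module.finrank_fin_fun]
  · rw [Set.iUnion_const, hK.1.convexHull_eq]

/-- finite sets are joins of their points -/
lemma tree_finset (S : Finset (Fin n → ℝ)) (hS : S.Nonempty) :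
    TreeLike (S : Set (Fin n → ℝ)) (S.card - 1) := by
  classical
  induction hS using Finset.Nonempty.cons_induction with
  | singleton a =>
    rw [Finset.coe_singleton, Finset.card_singleton]
    exact .point a
  | cons a s ha hs ih =>
    rw [Finset.coe_cons, Finset.card_cons]
    have h := TreeLike.join (.point a) ih
    rw [Set.singleton_union] at h
    have hc := Finset.card_pos.2 hs
    have e : 0 + (s.card - 1) + 1 = s.card + 1 - 1 := by omega
    rwa [e] at h

/-- polytopes with at most `n + 2` vertices belong to the class -/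
lemma fewVertices (Q : Finset (Fin n → ℝ)) (hQ : Q.card ≤ n + 2)
    (hi : (interior (convexHull ℝ (Q : Set (Fin n → ℝ)))).Nonempty) :
    Generated n (convexHull ℝ (Q : Set (Fin n → ℝ))) := by
  classical
  refine .treeLike ?_ hi
  have hne : Q.Nonempty := by
    rw [← Finset.coe_nonempty, ← convexHull_nonempty_iff (𝕜 := ℝ)]
    exact hi.mono interior_subset
  have haff : affineSpan ℝ (Q : Set (Fin n → ℝ)) = ⊤ :=
    interior_convexHull_nonempty_iff_affineSpan_eq_top.1 hi
  have hcard : n + 1 ≤ Q.card := by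
    have h1 : vectorSpan ℝ (Q : Set (Fin n → ℝ)) = ⊤ := by
      rw [← direction_affineSpan, haff, AffineSubspace.direction_top]
    have h2 := finrank_vectorSpan_image_finset_le ℝ (fun x : Fin n → ℝ => x) Q
      (n := Q.card - 1) (by have := Finset.card_pos.2 hne; omega)
    have h3 : ((Q.image fun x : Fin n → ℝ => x : Finset (Fin n → ℝ)) : Set (Fin n → ℝ)) = Q := by
      simp
    rw [h3, h1, finrank_top, Module.finrank_fin_fun] at h2
    have := Finset.card_pos.2 hne
    omega
  rcases Nat.lt_or_ge Q.card (n + 2) with h | h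
  · have e : Q.card - 1 = n := by omega
    have := tree_finset Q hne
    rwa [e] at this
  · have hcd : Q.card = n + 2 := by omega
    have hdep : ¬ AffineIndependent ℝ (fun x : Q => (x : Fin n → ℝ)) := by
      intro hind
      have h1 := hind.card_le_finrank_succ
      have h2 := Submodule.finrank_le (vectorSpan ℝ (Set.range fun x : Q => (x : Fin n → ℝ)))
      rw [Module.finrank_fin_fun] at h2
      rw [Fintype.card_coe] at h1
      omega
    obtain ⟨I, x, hx1, hx2⟩ := Convex.radon_partition hdep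
    set S1 : Finset (Fin n → ℝ) := Q.filter fun y => ∃ h : y ∈ Q, (⟨y, h⟩ : Q) ∈ I with hS1
    set S2 : Finset (Fin n → ℝ) := Q.filter fun y => ¬ ∃ h : y ∈ Q, (⟨y, h⟩ : Q) ∈ I with hS2
    have e1 : (fun x : Q => (x : Fin n → ℝ)) '' I = (S1 : Set (Fin n → ℝ)) := by
      ext y
      rw [hS1]
      simp only [Set.mem_image, Subtype.exists, exists_and_right, exists_eq_right,
        Finset.coe_filter, Set.mem_ofPred_eq]
      constructor
      · rintro ⟨hy, hyI⟩
        exact ⟨hy, hy, hyI⟩
      · rintro ⟨_, hy, hyI⟩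
        exact ⟨hy, hyI⟩
    have e2 : (fun x : Q => (x : Fin n → ℝ)) '' Iᶜ = (S2 : Set (Fin n → ℝ)) := by
      ext y
      rw [hS2]
      simp only [Set.mem_image, Subtype.exists, exists_and_right, exists_eq_right,
        Finset.coe_filter, Set.mem_ofPred_eq, Set.mem_compl_iff]
      constructor
      · rintro ⟨hy, hyI⟩
        exact ⟨hy, fun ⟨_, h'⟩ => hyI h'⟩
      · rintro ⟨hy, hyI⟩
        exact ⟨hy, fun h' => hyI ⟨hy, h'⟩⟩
    rw [e1] at hx1
    rw [e2] at hx2
    have n1 : S1.Nonempty := by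
      rw [← Finset.coe_nonempty, ← convexHull_nonempty_iff (𝕜 := ℝ)]
      exact ⟨x, hx1⟩
    have n2 : S2.Nonempty := by
      rw [← Finset.coe_nonempty, ← convexHull_nonempty_iff (𝕜 := ℝ)]
      exact ⟨x, hx2⟩
    have hsum : S1.card + S2.card = Q.card := Finset.card_filter_add_card_filter_not _
    have hun : (S1 : Set (Fin n → ℝ)) ∪ (S2 : Set (Fin n → ℝ)) = Q := by
      rw [← Finset.coe_union, hS1, hS2, Finset.filter_union_filter_not_eq]
    have h3 := TreeLike.glue (tree_finset S1 n1) (tree_finset S2 n2) ⟨x, hx1, hx2⟩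
    rw [hun] at h3
    have c1 := Finset.card_pos.2 n1
    have c2 := Finset.card_pos.2 n2
    have e : S1.card - 1 + (S2.card - 1) = n := by omega
    rwa [e] at h3

/-! ### the Mahler volumes -/

lemma mv_fin {p : ℝ≥0∞} (hp : p ≠ ⊤) (K : Set (Fin n → ℝ)) :
    mahlerVolume p K = Mp p.toReal K := by
  unfold mahlerVolume
  rw [if_neg hp]
  rfl

lemma mv_top (K : Set (Fin n → ℝ)) : mahlerVolume ⊤ K = mah K := by
  unfold mahlerVolume
  rw [if_pos rfl]
  rfl

lemma inf_fin {p : ℝ≥0∞} (hp0 : p ≠ 0) (hp : p ≠ ⊤) : simplexInf n p = Mp p.toReal (Sn n) := by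
  have hpp : 0 < p.toReal := ENNReal.toReal_pos hp0 hp
  rw [← II_eq n hpp]
  unfold simplexInf
  simp only [mv_fin hp]
  rfl

lemma inf_top : simplexInf n ⊤ = mah (Sn n) := by
  unfold simplexInf
  simp only [mv_top]
  apply le_antisymm
  · have h2 := iInf₂_le (f := fun (x : Fin n → ℝ) (_ : x ∈ simplex n) =>
      mah ((fun z : Fin n → ℝ => z - x) '' simplex n))
      _ (Pool.Agent.H131R5.LM.center_mem (n := n))
    rw [← Pool.Agent.H131R5.LM.image_Dn]
    exact h2
  · refine le_iInf₂ fun x _ => ?_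
    rw [Run7.h434.ST.mah_Sn]
    exact (Run7.h434.ST.mah_tr x).1

lemma body_simplex (n : ℕ) : Body (simplex n) :=
  ⟨Pool.Agent.H131R5.LC.Dn_conv, Pool.Agent.H131R5.LC.Dn_comp, Pool.Agent.H131R5.LC.Dn_int⟩

lemma LK_simplex (n : ℕ) : isotropicConstant (simplex n) = Pool.Agent.N563.SE.LK (Sn n) := by
  have h := Pool.Agent.N563.SE.LK_sh (body_iff (body_simplex n)) (fun _ => 1 / ((n:ℝ) + 1))
  rw [← Pool.Agent.H131R5.LM.image_Dn]
  exact h.symm

/-- the bodies of the theorem: the class `Generated n`, and all bodies near simplices -/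
def Good (n : ℕ) (δ : ℝ) (K : Set (Fin n → ℝ)) : Prop :=
  Generated n K ∨ (Body K ∧ deviation K ≤ δ)

lemma good_body {δ : ℝ} {K : Set (Fin n → ℝ)} (h : Good n δ K) : Body K :=
  h.elim (fun h => (generated h).1) fun h => h.1

lemma good_shift {δ : ℝ} {K : Set (Fin n → ℝ)} (h : Good n δ K) (z : Fin n → ℝ) :
    Good n δ (shift K z) := by
  rcases h with h | ⟨h1, h2⟩
  · left
    have h1 := Generated.affine h (LinearEquiv.refl ℝ _) z
    have e : (LinearEquiv.refl ℝ (Fin n → ℝ)) '' K = K := by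
      ext w
      constructor
      · rintro ⟨x, hx, rfl⟩
        exact hx
      · intro hw
        exact ⟨w, hw, rfl⟩
    rwa [e] at h1
  · right
    refine ⟨shift_body h1 z, ?_⟩
    have h3 : deviation (shift K z) = deviation K := dev_sh (body_iff h1) z
    rw [h3]
    exact h2

/-- one constant for all finite exponents -/
theorem finite_stab (hn : 1 ≤ n) : ∃ c δ : ℝ, 0 < c ∧ 0 < δ ∧
    (∀ K : Set (Fin n → ℝ), Good n δ K →
      ∀ p : ℝ, 0 < p → ENNReal.ofReal (1 + c * dev K) * Mp p (Sn n) ≤ Mp p K) ∧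
    ∃ P : ℝ, 0 < P ∧ ∀ p : ℝ, P ≤ p → Pool.Agent.N563.UL.Stab n c p := by
  rcases Nat.lt_or_ge n 2 with h | h
  · obtain rfl : n = 1 := by omega
    have hd : ∀ K : Set (Fin 1 → ℝ), Pool.Agent.N563.SE.Body K → ∀ p : ℝ, 0 < p →
        ENNReal.ofReal (1 + 1 * dev K) * Mp p (Sn 1) ≤ Mp p K := by
      intro K hK p hp
      obtain ⟨Q, hQ, hKQ⟩ := Pool.Agent.TH649.LOC.dim_one hK.cpt hK.conv hK.int
      have hd : dev K = 0 := (dev_zero hK).2 ⟨Q, hQ, hKQ⟩
      rw [hd, mul_zero, add_zero, ENNReal.ofReal_one, one_mul]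
      exact (Pool.Agent.TH649.LOC.hull_le hp hK.int hQ hKQ).1
    exact ⟨1, 1, one_pos, one_pos, fun K hK p hp => hd K (body_iff (good_body hK)) p hp, 1,
      one_pos, fun p hp K hK => hd K hK p (one_pos.trans_le hp)⟩
  · obtain ⟨δ, c, P, hC⟩ := exists_cst h
    have hδ := hC.δ0
    have hc := hC.c0
    refine ⟨c * δ, δ, by positivity, hδ, fun K hK p hp => ?_, P, hC.P0, fun p hp => ?_⟩
    · rcases hK with hK | ⟨hK, hd⟩
      · obtain ⟨hB, _, hF⟩ := generated hK
        exact stab_of_far hC (body_iff hB) (fun q hq hqP => hF h δ c P hC q hq hqP) hp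
      · exact stab_of_far hC (body_iff hK) (fun q hq hqP _ => Or.inl hd) hp
    · refine Run7.h434.ST.stab_mono ?_ (hC.large p hp)
      have := hC.δ1
      nlinarith

/-- **Uniform linear stability of the non-symmetric `L^p`-Mahler inequality.**  For every `n ≥ 1`
there are `c, δ > 0` such that for all bodies `K` of the class `Generated n`, and for all convex
bodies `K` with `dev K ≤ δ`,

* `M_p(K) ≥ (1 + c dev K) inf_x M_p(Δ_n - x)` for all `p ∈ (0,∞]`, and equality holds in the
  inequality of Q1 exactly for the simplices with centroid at the origin;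
* `(1 + c dev K) L_K^n ≤ L_Δ^n`, so that `L_K = L_Δ` only for simplices.

The class contains all planar convex bodies and, in all dimensions, the polytopes with at most
`n + 2` vertices.  The bodies are in any position (the class and the deviation are invariant under
affine bijections). -/
theorem result (n : ℕ) (hn : 1 ≤ n) :
    (∃ c δ : ℝ, 0 < c ∧ 0 < δ ∧ ∀ K : Set (Fin n → ℝ),
      (Generated n K ∨ (Body K ∧ deviation K ≤ δ)) →
      (∀ p : ℝ≥0∞, p ≠ 0 →
        ENNReal.ofReal (1 + c * deviation K) * simplexInf n p ≤ mahlerVolume p K ∧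
        (mahlerVolume p K = simplexInf n p ↔ CentredSimplex K)) ∧
      (1 + c * deviation K) * isotropicConstant K ^ n ≤ isotropicConstant (simplex n) ^ n ∧
      (isotropicConstant K = isotropicConstant (simplex n) → deviation K = 0)) ∧
    -- the deviation
    (∀ K : Set (Fin n → ℝ), Body K → 0 ≤ deviation K ∧ deviation K < 1 ∧
      (deviation K = 0 ↔ ∃ Q : Finset (Fin n → ℝ), Q.card ≤ n + 1 ∧
        K = convexHull ℝ (Q : Set (Fin n → ℝ)))) ∧
    -- all planar bodies, and polytopes with at most `n + 2` vertices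
    (n = 2 → ∀ K : Set (Fin n → ℝ), Body K → Generated n K) ∧
    (∀ Q : Finset (Fin n → ℝ), Q.card ≤ n + 2 →
      (interior (convexHull ℝ (Q : Set (Fin n → ℝ)))).Nonempty →
        Generated n (convexHull ℝ (Q : Set (Fin n → ℝ)))) := by
  refine ⟨?_, fun K hK => ⟨dev_nonneg (body_iff hK), dev_lt_one (body_iff hK),
    dev_zero (body_iff hK)⟩, ?_, fun Q hQ hi => fewVertices Q hQ hi⟩
  · obtain ⟨c, δ, hc, hδ, hfin, P, hP, htop⟩ := finite_stab hn
    refine ⟨c, δ, hc, hδ, fun K hK' => ?_⟩
    have hK : Good n δ K := hK'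
    have hB := good_body hK
    have hKb := body_iff hB
    refine ⟨fun p hp0 => ?_, ?_⟩
    · by_cases hpt : p = ⊤
      · subst hpt
        rw [mv_top, inf_top]
        refine ⟨Run7.h434.ST.stab_top hP htop hc.le hKb, ?_⟩
        have h1 := (Run7.h434.ST.good_top hP htop hc hKb).2
        rw [Pool.Agent.TH649.LOC.centred_iff] at h1
        exact h1
      · have hpp : 0 < p.toReal := ENNReal.toReal_pos hp0 hpt
        rw [mv_fin hpt, inf_fin hp0 hpt]
        have h1 := hfin K hK p.toReal hpp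
        have h2 := Pool.Agent.N563.UL.stab_eq hc hpp hKb h1
        exact ⟨h1, fun he => Pool.Agent.N563.UL.hull_centred hpp hKb (h2.2 he) he,
          fun hc' => Pool.Agent.N563.UL.centred_eq hpp hc'⟩
    · have hlim : (1 + c * dev K) * Pool.Agent.N563.SE.LK K ^ n ≤
          Pool.Agent.N563.SE.LK (Sn n) ^ n := by
        refine limit_zero hn hc hKb fun p hp z => ?_
        have h1 := hfin (shift K z) (good_shift hK z) p hp
        have h2 : dev (shift K z) = dev K := dev_sh hKb z
        rw [h2] at h1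
        exact h1
      rw [LK_simplex]
      refine ⟨hlim, fun he => ?_⟩
      have he' : Pool.Agent.N563.SE.LK K = Pool.Agent.N563.SE.LK (Sn n) := he
      have hL : 0 < Pool.Agent.N563.SE.LK (Sn n) ^ n :=
        pow_pos (Pool.Agent.N563.SE.LK_pos (Pool.Agent.N563.UL.bodyS n)) n
      rw [he'] at hlim
      have hd := dev_nonneg hKb
      by_contra hne
      have h3 : 0 < dev K := lt_of_le_of_ne hd (Ne.symm hne)
      have h4 : 0 < c * dev K := mul_pos hc h3
      nlinarith
  · rintro rfl K hK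
    exact planar hK

end Pool.Agent.Results.MP_5f4cdd_gt.UniformStability

end
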